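import Pool.Agent.H28.LF.F1

/-!
# MP_c59857_nt (THEOREM U): row DVS of the board `lfu_modules` (densities on a component)
-/

set_option autoImplicit false

open MeasureTheory ProbabilityTheory Filter Topology Finset
open scoped Nat ENNReal

namespace Pool.Agent.H79.LF

open Pool.Agent.H28.LF

theorem flY_meas (d : ℕ) : MeasurableSet (flY d) := by
  have h : Measurable fun ω : Yi => (ω 0).2.1 d :=
    (measurable_pi_apply d).comp
      (measurable_fst.comp (measurable_snd.comp (measurable_pi_apply (0 : ℤ))))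
  exact h (measurableSet_singleton true)

theorem btY_meas : MeasurableSet {ω : Yi | (btY ω).2 = false} := by
  have h : Measurable fun ω : Yi => (btY ω).2 :=
    measurable_snd.comp (measurable_fst.comp (measurable_pi_apply (0 : ℤ)))
  exact h (measurableSet_singleton false)

open Classical in
/-- the density of the multiples of `d` -/
theorem flY_dens {ν : Measure Yi} (h : CompY ν) (d : ℕ) (hd : 0 < d) :
    ν.real (flY d) = 1 / d := by
  have := h.prob
  have hmp : MeasurePreserving shY ν ν := h.erg.toMeasurePreserving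
  have hI : ∀ i : ℕ, ν.real (shY^[i] ⁻¹' flY d) = ν.real (flY d) := fun i =>
    (hmp.iterate i).measureReal_preimage (flY_meas d).nullMeasurableSet
  have hm : ∀ i : ℕ, MeasurableSet (shY^[i] ⁻¹' flY d) := fun i =>
    (hmp.iterate i).measurable (flY_meas d)
  have h1 : ∫ ω, ∑ i ∈ range d, (shY^[i] ⁻¹' flY d).indicator (fun _ => (1 : ℝ)) ω ∂ν = 1 := by
    have h2 : (fun ω => ∑ i ∈ range d, (shY^[i] ⁻¹' flY d).indicator (fun _ => (1 : ℝ)) ω)
        =ᵐ[ν] fun _ => (1 : ℝ) := by
      filter_upwards [h.per d hd] with ω hω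
      obtain ⟨i, ⟨hi, hif⟩, hu⟩ := hω.2
      rw [Finset.sum_eq_single i]
      · rw [Set.indicator_of_mem]
        exact hif
      · intro j hj hji
        rw [Set.indicator_of_notMem]
        intro hjf
        exact hji (hu j ⟨mem_range.1 hj, hjf⟩)
      · intro hi'
        exact absurd (mem_range.2 hi) hi'
    rw [integral_congr_ae h2]
    simp
  rw [integral_finsetSum] at h1
  · have h3 : ∀ i ∈ range d, ∫ ω, (shY^[i] ⁻¹' flY d).indicator (fun _ => (1 : ℝ)) ω ∂ν =
        ν.real (flY d) := by
      intro i _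
      rw [integral_indicator_const _ (hm i), hI i]
      simp
    rw [Finset.sum_congr rfl h3, Finset.sum_const, card_range, nsmul_eq_mul] at h1
    have hd' : (d : ℝ) ≠ 0 := by
      have : (0 : ℝ) < d := by exact_mod_cast hd
      exact this.ne'
    field_simp
    linarith
  · intro i _
    exact (integrable_const (1 : ℝ)).indicator (hm i)

/-- the reciprocals of the squares of the primes -/
noncomputable def ap (n : ℕ) : ℝ := if n.Prime then 1 / (n : ℝ) ^ 2 else 0

theorem ap_nn (n : ℕ) : 0 ≤ ap n := by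
  unfold ap
  split_ifs <;> positivity

theorem ap_sum (n : ℕ) : ∑ i ∈ range (n + 3), ap i ≤ 3 / 4 - 1 / ((n : ℝ) + 2) := by
  induction n with
  | zero =>
    have h0 : ap 0 = 0 := by unfold ap; rw [if_neg Nat.not_prime_zero]
    have h1 : ap 1 = 0 := by unfold ap; rw [if_neg Nat.not_prime_one]
    have h2 : ap 2 = 1 / 4 := by unfold ap; rw [if_pos Nat.prime_two]; norm_num
    rw [Finset.sum_range_succ, Finset.sum_range_succ, Finset.sum_range_succ, Finset.sum_range_zero,
      h0, h1, h2]
    norm_num
  | succ n ih =>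
    rw [show n + 1 + 3 = n + 3 + 1 by ring, Finset.sum_range_succ]
    have h1 : ap (n + 3) ≤ 1 / ((n : ℝ) + 2) - 1 / ((n : ℝ) + 3) := by
      have h2 : ap (n + 3) ≤ 1 / ((n : ℝ) + 3) ^ 2 := by
        unfold ap
        split_ifs
        · push_cast
          exact le_rfl
        · positivity
      refine h2.trans ?_
      have hn : (0 : ℝ) ≤ n := Nat.cast_nonneg n
      rw [div_sub_div _ _ (by positivity) (by positivity), div_le_div_iff₀ (by positivity)
        (by positivity)]
      nlinarith
    push_cast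
    have h3 : (n : ℝ) + 1 + 2 = n + 3 := by ring
    rw [h3]
    linarith

theorem ap_sum' (n : ℕ) : ∑ i ∈ range n, ap i ≤ 3 / 4 := by
  have h1 : ∑ i ∈ range n, ap i ≤ ∑ i ∈ range (n + 3), ap i :=
    Finset.sum_le_sum_of_subset_of_nonneg (range_mono (by omega)) fun i _ _ => ap_nn i
  have h2 := ap_sum n
  have h3 : (0 : ℝ) ≤ 1 / ((n : ℝ) + 2) := by positivity
  linarith

theorem pf_DVS : T_DVS := by
  classical
  intro ν h
  have := h.prob
  refine ⟨fun d hd => flY_dens h d hd, ?_⟩
  have hsum : Summable ap := summable_of_sum_range_le ap_nn ap_sum'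
  have htsum : ∑' n, ap n ≤ 3 / 4 := Real.tsum_le_of_sum_range_le ap_nn ap_sum'
  have hf : ν {ω : Yi | (btY ω).2 = false} ≤ ENNReal.ofReal (3 / 4) := by
    have h1 : ν {ω : Yi | (btY ω).2 = false} ≤
        ν (⋃ n : ℕ, if n.Prime then flY (n ^ 2) else ∅) := by
      refine measure_mono_ae ?_
      filter_upwards [h.sqf] with ω hω hω2
      obtain ⟨p, hp, hpf⟩ := hω.1 hω2
      refine Set.mem_iUnion.2 ⟨p, ?_⟩
      rw [if_pos hp]
      exact hpf
    refine h1.trans ((measure_iUnion_le _).trans ?_)
    have h2 : ∀ n : ℕ, ν (if n.Prime then flY (n ^ 2) else ∅) = ENNReal.ofReal (ap n) := by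
      intro n
      unfold ap
      split_ifs with hn
      · have h3 := flY_dens h (n ^ 2) (pow_pos hn.pos 2)
        rw [← ENNReal.ofReal_toReal (measure_ne_top ν (flY (n ^ 2)))]
        congr 1
        rw [← measureReal_def, h3]
        push_cast
        rfl
      · simp
    rw [tsum_congr h2, ← ENNReal.ofReal_tsum_of_nonneg ap_nn hsum]
    exact ENNReal.ofReal_le_ofReal htsum
  have hf' : ν.real {ω : Yi | (btY ω).2 = false} ≤ 3 / 4 := by
    rw [measureReal_def]
    exact ENNReal.toReal_le_of_le_ofReal (by norm_num) hf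
  have hc : {ω : Yi | (btY ω).2 = true} = {ω : Yi | (btY ω).2 = false}ᶜ := by
    ext ω
    simp
  rw [hc, probReal_compl_eq_one_sub btY_meas]
  linarith

end Pool.Agent.H79.LF
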