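import Pool.Agent.H28.LF.T2
import Pool.Agent.H75.AG.S5

/-!
# MP_c59857_nt (THEOREM U): row X7 of the board `lfu_modules` (average over the shift)
-/

set_option autoImplicit false
set_option linter.unusedSectionVars false

open MeasureTheory ProbabilityTheory Filter Topology Finset
open scoped Nat ENNReal

namespace Pool.Agent.H79.LF

open Pool.Agent.H67.AG
open Pool.Agent.H75.AG (int_abs_le key_ae Av_meas Av_abs)

section general

variable {Ω : Type} [mΩ : MeasurableSpace Ω] (P : Measure Ω) [IsProbabilityMeasure P]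
  (T : Ω ≃ᵐ Ω) {n : ℕ} (s : Ω → Fin n) (h : Fin n → Ω → ℝ)

open Classical in
/-- indicator of the selection of `b` -/
noncomputable def sl (b : Fin n) (ω : Ω) : ℝ := if s ω = b then 1 else 0

omit mΩ in
theorem sl_nn (b : Fin n) (ω : Ω) : 0 ≤ sl s b ω := by
  unfold sl; split_ifs <;> norm_num

omit mΩ in
theorem sl_abs (b : Fin n) (ω : Ω) : |sl s b ω| ≤ 1 := by
  unfold sl; split_ifs <;> norm_num

theorem sl_meas (hs : Measurable s) (b : Fin n) : Measurable (sl s b) := by
  unfold sl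
  exact Measurable.ite (hs (measurableSet_singleton b)) measurable_const measurable_const

theorem sl_int (hs : Measurable s) (b : Fin n) : Integrable (sl s b) P := by
  refine Integrable.of_bound (sl_meas s hs b).aestronglyMeasurable 1 ?_
  exact Eventually.of_forall fun ω => by rw [Real.norm_eq_abs]; exact sl_abs s b ω

/-- the conditional probability of the selection of `b` -/
noncomputable def qq (b : Fin n) : Ω → ℝ := P[sl s b | Inv T 1]

omit mΩ in
theorem invle' [mΩ : MeasurableSpace Ω] (T : Ω ≃ᵐ Ω) : Inv T 1 ≤ mΩ :=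
  MeasurableSpace.invariants_le _

theorem qq_sm (b : Fin n) : StronglyMeasurable[Inv T 1] (qq P T s b) :=
  stronglyMeasurable_condExp

theorem qq_meas (b : Fin n) : Measurable (qq P T s b) :=
  ((qq_sm P T s b).mono (invle' T)).measurable

theorem qq_nn (b : Fin n) : ∀ᵐ ω ∂P, 0 ≤ qq P T s b ω :=
  condExp_nonneg (Eventually.of_forall fun ω => sl_nn s b ω)

theorem qq_abs (b : Fin n) : ∀ᵐ ω ∂P, |qq P T s b ω| ≤ 1 := by
  exact ae_bdd_abs_condExp_of_ae_bdd_abs (R := (1 : ℝ))
    (Eventually.of_forall fun ω => sl_abs s b ω)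

omit mΩ in
theorem sum_sl (ω : Ω) : ∑ b, sl s b ω = 1 := by
  unfold sl
  rw [Finset.sum_ite_eq, if_pos (Finset.mem_univ _)]

theorem qq_sum (hs : Measurable s) : ∀ᵐ ω ∂P, ∑ b, qq P T s b ω = 1 := by
  have h1 := condExp_finsetSum (s := Finset.univ) (f := fun b => sl s b) (μ := P)
    (fun b _ => sl_int P s hs b) (Inv T 1)
  have h2 : (∑ b, sl s b) = fun _ : Ω => (1 : ℝ) := by
    funext ω
    rw [Finset.sum_apply]
    exact sum_sl s ω
  rw [h2, condExp_const (invle' T)] at h1
  filter_upwards [h1] with ω hω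
  rw [Finset.sum_apply] at hω
  exact hω.symm

/-- the function selected at the time `t` -/
noncomputable def Mt (t : ℕ) (ω : Ω) : ℝ := h (s (T^[t] ω)) ω

theorem Mt_eq (t : ℕ) (ω : Ω) :
    Mt T s h t ω = ∑ b, sl s b (T^[1 * t] ω) * h b ω := by
  have h1 : ∀ b, sl s b (T^[1 * t] ω) * h b ω =
      if s (T^[1 * t] ω) = b then h b ω else 0 := by
    intro b
    unfold sl
    split_ifs <;> ring
  rw [Finset.sum_congr rfl fun b _ => h1 b, Finset.sum_ite_eq, if_pos (Finset.mem_univ _), one_mul]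
  rfl

variable (hs : Measurable s) (hm : ∀ b, Measurable (h b)) (h0 : ∀ b ω, 0 ≤ h b ω)
  (h1 : ∀ b ω, h b ω ≤ 1)

include hm h0 h1 in
theorem h_int (b : Fin n) : Integrable (h b) P := by
  refine Integrable.of_bound (hm b).aestronglyMeasurable 1 ?_
  exact Eventually.of_forall fun ω => by
    rw [Real.norm_eq_abs, abs_of_nonneg (h0 b ω)]; exact h1 b ω

include hs hm in
theorem Mt_meas (t : ℕ) : Measurable (Mt T s h t) := by
  have : Mt T s h t = fun ω => ∑ b, sl s b (T^[1 * t] ω) * h b ω :=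
    funext fun ω => Mt_eq T s h t ω
  rw [this]
  exact Finset.measurable_fun_sum _ fun b _ =>
    ((sl_meas s hs b).comp (T.measurable.iterate _)).mul (hm b)

include hs hm h0 h1 in
theorem Mt_int (t : ℕ) : Integrable (Mt T s h t) P := by
  refine Integrable.of_bound (Mt_meas T s h hs hm t).aestronglyMeasurable 1 ?_
  exact Eventually.of_forall fun ω => by
    rw [Real.norm_eq_abs]
    unfold Mt
    rw [abs_of_nonneg (h0 _ ω)]; exact h1 _ ω

/-- the average over the shift -/
noncomputable def FN (N : ℕ) (ω : Ω) : ℝ :=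
  ∑ b, Av T 1 N (sl s b) ω * h b ω

/-- its limit -/
noncomputable def GLim (ω : Ω) : ℝ := ∑ b, qq P T s b ω * h b ω

theorem FN_eq (N : ℕ) (ω : Ω) : FN T s h N ω = (∑ t ∈ range N, Mt T s h t ω) / N := by
  unfold FN Av
  rw [Finset.sum_congr rfl fun t (_ : t ∈ range N) => Mt_eq T s h t ω, Finset.sum_comm,
    Finset.sum_div]
  refine Finset.sum_congr rfl fun b _ => ?_
  rw [← Finset.sum_mul]
  ring

include hs in
theorem close_sl (hme : T_ME) (mp : MeasurePreserving T P P) (ε : ℝ) (hε : 0 < ε) :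
    ∃ N : ℕ, 0 < N ∧ ∀ b, ∫ ω, |Av T 1 N (sl s b) ω - qq P T s b ω| ∂P ≤ ε := by
  have h1 : ∀ b, ∀ᶠ N : ℕ in atTop,
      ∫ ω, (Av T 1 N (sl s b) ω - qq P T s b ω) ^ 2 ∂P < ε ^ 2 := fun b =>
    (hme Ω P T 1 (sl s b) mp (sl_meas s hs b) (sl_abs s b)).eventually_lt_const
      (by positivity)
  have h2 : ∀ᶠ N : ℕ in atTop, ∀ b,
      ∫ ω, (Av T 1 N (sl s b) ω - qq P T s b ω) ^ 2 ∂P < ε ^ 2 :=
    Filter.eventually_all.2 h1
  obtain ⟨N, hN, hN1⟩ := (h2.and (eventually_ge_atTop 1)).exists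
  refine ⟨N, hN1, fun b => ?_⟩
  have hm : Measurable fun ω => Av T 1 N (sl s b) ω - qq P T s b ω :=
    (Av_meas T 1 N _ (sl_meas s hs b)).sub (qq_meas P T s b)
  have hb : ∀ᵐ ω ∂P, ‖Av T 1 N (sl s b) ω - qq P T s b ω‖ ≤ 2 := by
    filter_upwards [qq_abs P T s b] with ω hω
    rw [Real.norm_eq_abs]
    have h3 := Av_abs T 1 N _ (sl_abs s b) ω
    calc |Av T 1 N (sl s b) ω - qq P T s b ω| ≤ |Av T 1 N (sl s b) ω| + |qq P T s b ω| :=
          abs_sub _ _
      _ ≤ 2 := by linarith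
  have hi : Integrable (fun ω => Av T 1 N (sl s b) ω - qq P T s b ω) P :=
    Integrable.of_bound hm.aestronglyMeasurable 2 hb
  have hi2 : Integrable (fun ω => (Av T 1 N (sl s b) ω - qq P T s b ω) ^ 2) P := by
    refine Integrable.of_bound (hm.pow_const 2).aestronglyMeasurable 4 ?_
    filter_upwards [hb] with ω hω
    rw [norm_pow]
    nlinarith [norm_nonneg (Av T 1 N (sl s b) ω - qq P T s b ω)]
  refine (int_abs_le _ ε hε hi hi2).trans ?_
  have h4 : (∫ ω, (Av T 1 N (sl s b) ω - qq P T s b ω) ^ 2 ∂P) / (2 * ε) ≤ ε / 2 := by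
    rw [div_le_iff₀ (by positivity)]
    have := (hN b).le
    nlinarith
  linarith

include hs hm h0 h1 in
theorem FN_int (N : ℕ) : Integrable (FN T s h N) P := by
  have h2 : FN T s h N = fun ω => (∑ t ∈ range N, Mt T s h t ω) / N :=
    funext fun ω => FN_eq T s h N ω
  rw [h2]
  exact (integrable_finsetSum _ fun t _ => Mt_int P T s h hs hm h0 h1 t).div_const _

include hm h0 h1 in
theorem term_int (b : Fin n) : Integrable (fun ω => qq P T s b ω * h b ω) P := by
  refine Integrable.of_bound ((qq_meas P T s b).mul (hm b)).aestronglyMeasurable 1 ?_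
  filter_upwards [qq_abs P T s b] with ω hω
  rw [norm_mul, Real.norm_eq_abs, Real.norm_eq_abs, abs_of_nonneg (h0 b ω)]
  exact mul_le_one₀ hω (h0 b ω) (h1 b ω)

include hm h0 h1 in
theorem GLim_int : Integrable (GLim P T s h) P :=
  integrable_finsetSum _ fun b _ => term_int P T s h hm h0 h1 b

include hs hm h0 h1 in
theorem FN_GLim (N : ℕ) (ε : ℝ)
    (hε : ∀ b, ∫ ω, |Av T 1 N (sl s b) ω - qq P T s b ω| ∂P ≤ ε) :
    ∫ ω, |FN T s h N ω - GLim P T s h ω| ∂P ≤ n * ε := by
  have hI : ∀ b, Integrable (fun ω => |Av T 1 N (sl s b) ω - qq P T s b ω|) P := by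
    intro b
    have hA : Integrable (Av T 1 N (sl s b)) P := by
      refine Integrable.of_bound (Av_meas T 1 N _ (sl_meas s hs b)).aestronglyMeasurable 1 ?_
      exact Eventually.of_forall fun ω => by
        rw [Real.norm_eq_abs]; exact Av_abs T 1 N _ (sl_abs s b) ω
    refine (hA.sub ?_).abs
    exact integrable_condExp
  calc ∫ ω, |FN T s h N ω - GLim P T s h ω| ∂P
      ≤ ∫ ω, ∑ b, |Av T 1 N (sl s b) ω - qq P T s b ω| ∂P := by
        refine integral_mono ((FN_int P T s h hs hm h0 h1 N).sub (GLim_int P T s h hm h0 h1)).abs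
          (integrable_finsetSum _ fun b _ => hI b) fun ω => ?_
        simp only
        have h2 : FN T s h N ω - GLim P T s h ω =
            ∑ b, (Av T 1 N (sl s b) ω - qq P T s b ω) * h b ω := by
          unfold FN GLim
          rw [← Finset.sum_sub_distrib]
          exact Finset.sum_congr rfl fun b _ => by ring
        rw [h2]
        refine (Finset.abs_sum_le_sum_abs _ _).trans (Finset.sum_le_sum fun b _ => ?_)
        rw [abs_mul, abs_of_nonneg (h0 b ω)]
        exact mul_le_of_le_one_right (abs_nonneg _) (h1 b ω)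
    _ = ∑ b, ∫ ω, |Av T 1 N (sl s b) ω - qq P T s b ω| ∂P :=
        integral_finsetSum _ fun b _ => hI b
    _ ≤ ∑ _b : Fin n, ε := Finset.sum_le_sum fun b _ => hε b
    _ = n * ε := by rw [Finset.sum_const, card_univ, Fintype.card_fin, nsmul_eq_mul]

/-- the limit of the averages of the conditional expectations -/
noncomputable def PhiL (ω : Ω) : ℝ := ∑ b, qq P T s b ω * (P[h b | Inv T 1]) ω

theorem PhiL_meas : Measurable (PhiL P T s h) := by
  unfold PhiL
  exact Finset.measurable_fun_sum _ fun b _ => (qq_meas P T s b).mul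
    ((stronglyMeasurable_condExp.mono (invle' T)).measurable)

theorem PhiL_int : Integrable (PhiL P T s h) P := by
  unfold PhiL
  refine integrable_finsetSum _ fun b _ => ?_
  exact integrable_condExp.bdd_mul (qq_meas P T s b).aestronglyMeasurable (c := 1) (by
    filter_upwards [qq_abs P T s b] with ω hω
    rwa [Real.norm_eq_abs])

include hs hm h0 h1 in
theorem condFN (N : ℕ) : (fun ω => (∑ t ∈ range N, (P[Mt T s h t | Inv T 1]) ω) / N) =ᵐ[P]
    P[FN T s h N | Inv T 1] := by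
  have h2 : FN T s h N = (N : ℝ)⁻¹ • ∑ t ∈ range N, Mt T s h t := by
    funext ω
    rw [FN_eq, Pi.smul_apply, Finset.sum_apply, smul_eq_mul, div_eq_inv_mul]
  rw [h2]
  have h3 := condExp_smul (μ := P) (N : ℝ)⁻¹ (∑ t ∈ range N, Mt T s h t) (Inv T 1)
  have h4 := condExp_finsetSum (s := range N) (f := fun t => Mt T s h t) (μ := P)
    (fun t _ => Mt_int P T s h hs hm h0 h1 t) (Inv T 1)
  filter_upwards [h3, h4] with ω h3 h4
  rw [h3, Pi.smul_apply, h4, Finset.sum_apply, smul_eq_mul, div_eq_inv_mul]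

include hm h0 h1 in
theorem condGL : (PhiL P T s h) =ᵐ[P] P[GLim P T s h | Inv T 1] := by
  have h2 : GLim P T s h = ∑ b, (qq P T s b * h b) := by
    funext ω
    rw [Finset.sum_apply]
    rfl
  rw [h2]
  have h4 := condExp_finsetSum (s := Finset.univ) (f := fun b => qq P T s b * h b)
    (μ := P) (fun b _ => term_int P T s h hm h0 h1 b) (Inv T 1)
  have h5 : ∀ b, (P[qq P T s b * h b | Inv T 1]) =ᵐ[P]
      qq P T s b * P[h b | Inv T 1] := fun b =>
    condExp_mul_of_stronglyMeasurable_left (qq_sm P T s b) (term_int P T s h hm h0 h1 b)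
      (h_int P h hm h0 h1 b)
  have h6 := Filter.eventually_all.2 h5
  filter_upwards [h4, h6] with ω h4 h6
  rw [h4, Finset.sum_apply]
  exact Finset.sum_congr rfl fun b _ => (h6 b).symm

include hs hm h0 h1 in
theorem close_Phi (hme : T_ME) (mp : MeasurePreserving T P P) (ε : ℝ) (hε : 0 < ε) :
    ∃ N : ℕ, 0 < N ∧
    ∫ ω, |(∑ t ∈ range N, (P[Mt T s h t | Inv T 1]) ω) / N - PhiL P T s h ω| ∂P ≤ ε := by
  have hpos : (0 : ℝ) < n + 1 := by positivity
  obtain ⟨N, hN, hb⟩ := close_sl P T s hs hme mp (ε / (n + 1)) (by positivity)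
  refine ⟨N, hN, ?_⟩
  have h2 : (P[FN T s h N - GLim P T s h | Inv T 1]) =ᵐ[P]
      P[FN T s h N | Inv T 1] - P[GLim P T s h | Inv T 1] :=
    condExp_sub (FN_int P T s h hs hm h0 h1 N) (GLim_int P T s h hm h0 h1) _
  calc ∫ ω, |(∑ t ∈ range N, (P[Mt T s h t | Inv T 1]) ω) / N - PhiL P T s h ω| ∂P
      = ∫ ω, |(P[FN T s h N - GLim P T s h | Inv T 1]) ω| ∂P := by
        refine integral_congr_ae ?_
        filter_upwards [condFN P T s h hs hm h0 h1 N, condGL P T s h hm h0 h1, h2] with ω h3 h4 h5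
        rw [h3, h4, h5, Pi.sub_apply]
    _ ≤ ∫ ω, |FN T s h N ω - GLim P T s h ω| ∂P := integral_abs_condExp_le _
    _ ≤ n * (ε / (n + 1)) := FN_GLim P T s h hs hm h0 h1 N _ hb
    _ = n * ε / (n + 1) := by ring
    _ ≤ ε := by
        rw [div_le_iff₀ hpos]
        nlinarith

include hs hm h0 h1 in
theorem main_avg (hme : T_ME) (mp : MeasurePreserving T P P) (c : ℝ) : ∀ᵐ ω ∂P,
    (∀ t, (P[Mt T s h t | Inv T 1]) ω ≤ c) → ∃ b, (P[h b | Inv T 1]) ω ≤ c := by
  have k1 := key_ae (P := P) (fun t => P[Mt T s h t | Inv T 1]) (PhiL P T s h) c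
    (fun t => (stronglyMeasurable_condExp.mono (invle' T)).measurable)
    (fun t => integrable_condExp) (PhiL_meas P T s h) (PhiL_int P T s h)
    (fun ε hε => close_Phi P T s h hs hm h0 h1 hme mp ε hε)
  have k2 := Filter.eventually_all.2 (qq_nn P T s)
  filter_upwards [k1, k2, qq_sum P T s hs] with ω k1 k2 k3 k4
  have k5 := k1 k4
  by_contra hcon
  push Not at hcon
  have k6 : c < PhiL P T s h ω := by
    obtain ⟨b₀, _, hb₀⟩ : ∃ b ∈ (Finset.univ : Finset (Fin n)), 0 < qq P T s b ω := by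
      by_contra hno
      push Not at hno
      have : ∑ b, qq P T s b ω ≤ 0 := Finset.sum_nonpos fun b hb => hno b hb
      linarith
    calc c = ∑ b, qq P T s b ω * c := by
          rw [← Finset.sum_mul, k3, one_mul]
      _ < PhiL P T s h ω := by
          unfold PhiL
          refine Finset.sum_lt_sum (fun b _ => mul_le_mul_of_nonneg_left (hcon b).le (k2 b))
            ⟨b₀, Finset.mem_univ _, mul_lt_mul_of_pos_left (hcon b₀) hb₀⟩
  linarith

end general

section x7

open Pool.Agent.H28.LF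

variable {d : Sx} (e : SxE d)

theorem Pb_nn (b : Fin d.n) (ω : e.Ω) : 0 ≤ e.Pb b ω := by
  unfold SxE.Pb; split_ifs <;> norm_num

theorem Pb_le (b : Fin d.n) (ω : e.Ω) : e.Pb b ω ≤ 1 := by
  unfold SxE.Pb; split_ifs <;> norm_num

theorem Pb_meas (b : Fin d.n) : Measurable (e.Pb b) := by
  unfold SxE.Pb
  have h1 : MeasurableSet {ω : e.Ω | e.g ω ∈ d.e (e.s ω) b} := by
    have h2 : {ω : e.Ω | e.g ω ∈ d.e (e.s ω) b} =
        ⋃ a, (e.s ⁻¹' {a}) ∩ (e.g ⁻¹' (d.e a b)) := by
      ext ω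
      simp
    rw [h2]
    refine MeasurableSet.iUnion fun a => (e.sm (measurableSet_singleton a)).inter ?_
    exact e.fac.1.measurable ((MeasurableSpace.invariants_le _) _ (d.em a b))
  exact Measurable.ite h1 measurable_const measurable_const

end x7

open Pool.Agent.H28.LF in
theorem pf_X7 (hM : Pool.Agent.H67.AG.T_ME) : T_X7 := by
  intro d e
  exact main_avg e.P e.T e.s e.Pb e.sm (Pb_meas e) (Pb_nn e) (Pb_le e) hM e.mp d.ps

end Pool.Agent.H79.LF
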